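import Pool.Agent.V11242.BT.Hat

/-!
# A Cantor set with `C + 2C = [0,1]` and few scaled differences of a special form
-/

namespace Pool.Agent.V11242.BT

/-- Zero-one digits. -/
def bit (δ : ℕ → Bool) (k : ℕ) : ℤ := if δ k then 1 else 0

/-- Numbers of `[0,1]` whose base four digits are zero or one. -/
def C : Set ℝ := Set.range fun δ : ℕ → Bool => T 4 (bit δ) / 4

lemma bit_nonneg (δ : ℕ → Bool) (k : ℕ) : 0 ≤ bit δ k := by unfold bit; split_ifs <;> simp
lemma bit_le_one (δ : ℕ → Bool) (k : ℕ) : bit δ k ≤ 1 := by unfold bit; split_ifs <;> simp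

lemma bit_abs (δ : ℕ → Bool) (k : ℕ) : |(bit δ k : ℝ)| ≤ 1 := by
  unfold bit; split_ifs <;> simp

lemma C_compact : IsCompact C := by
  apply isCompact_range
  refine Continuous.div_const ?_ _
  refine continuous_T (M := 1) (by norm_num) bit_abs ?_
  intro k
  have : (fun x : ℕ → Bool => bit x k) = (fun b : Bool => if b then (1 : ℤ) else 0) ∘
      fun x : ℕ → Bool => x k := by
    funext x; rfl
  rw [this]
  exact continuous_of_discreteTopology.comp (continuous_apply k)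

lemma C_nonneg {c : ℝ} (hc : c ∈ C) : 0 ≤ c := by
  obtain ⟨δ, rfl⟩ := hc
  have : 0 ≤ T 4 (bit δ) := by
    apply tsum_nonneg
    intro k
    have h1 : (0 : ℝ) ≤ bit δ k := by exact_mod_cast bit_nonneg δ k
    positivity
  positivity

lemma C_le {c : ℝ} (hc : c ∈ C) : c ≤ 1 / 3 := by
  obtain ⟨δ, rfl⟩ := hc
  have := abs_T_le (b := 4) (by norm_num) (bit_abs δ)
  have h2 := le_trans (le_abs_self _) this
  norm_num at h2
  simp only
  linarith

lemma C_cover {t : ℝ} (ht : t ∈ Set.Ico (0 : ℝ) 1) : ∃ c ∈ C, ∃ c' ∈ C, t = c + 2 * c' := by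
  have h1 := Real.ofDigits_digits (b := 4) (by norm_num) ht
  set d := Real.digits t 4 with hd
  let δ : ℕ → Bool := fun k => decide ((d k : ℕ) % 2 = 1)
  let δ' : ℕ → Bool := fun k => decide (2 ≤ (d k : ℕ))
  refine ⟨_, ⟨δ, rfl⟩, _, ⟨δ', rfl⟩, ?_⟩
  have s1 := (summable_T (b := 4) (by norm_num) (bit_abs δ)).hasSum
  have s2 := (summable_T (b := 4) (by norm_num) (bit_abs δ')).hasSum
  have s3 := (s1.mul_left (1 / 4)).add (s2.mul_left (2 / 4))
  rw [← h1]
  unfold Real.ofDigits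
  have h5 : ∀ k, Real.ofDigitsTerm d k = 1 / 4 * ((bit δ k : ℝ) * (4⁻¹) ^ k) +
      2 / 4 * ((bit δ' k : ℝ) * (4⁻¹) ^ k) := by
    intro k
    have h6 : ((d k : ℕ) : ℤ) = bit δ k + 2 * bit δ' k := by
      have h7 : (d k : ℕ) < 4 := (d k).2
      simp only [bit, δ, δ', decide_eq_true_eq]
      split_ifs <;> omega
    have h6' : ((d k : ℕ) : ℝ) = bit δ k + 2 * bit δ' k := by exact_mod_cast h6
    unfold Real.ofDigitsTerm
    rw [h6', pow_succ]
    push_cast
    rw [mul_inv, inv_pow]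
    ring
  rw [tsum_congr h5]
  have h8 := s3.tsum_eq
  rw [h8]
  simp only
  change 1 / 4 * T 4 (bit δ) + 2 / 4 * T 4 (bit δ') = _
  ring

lemma T_bit_sub (δ δ' : ℕ → Bool) :
    T 4 (bit δ) - T 4 (bit δ') = T 4 (fun k => bit δ k - bit δ' k) := by
  have s1 := (summable_T (b := 4) (by norm_num) (bit_abs δ)).hasSum
  have s2 := (summable_T (b := 4) (by norm_num) (bit_abs δ')).hasSum
  have s3 := s1.sub s2
  unfold T
  rw [← s3.tsum_eq]
  apply tsum_congr
  intro k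
  push_cast
  ring

lemma T_hat_sub (a b : ℕ → Bool) : pt a - pt b = T 4096 (fun k => hat a k - hat b k) := by
  have s3 := (hasSum_pt a).sub (hasSum_pt b)
  unfold T
  rw [← s3.tsum_eq]
  apply tsum_congr
  intro k
  push_cast
  ring

lemma abs_near {y e r : ℝ} (h : |y - e| ≤ r) : |e| - r ≤ |y| ∧ |y| ≤ |e| + r := by
  have := abs_abs_sub_abs_le y e
  have h2 := le_trans this h
  rw [abs_le] at h2
  constructor <;> linarith [h2.1, h2.2]

/-- No nonzero difference of two coded points equals a scaled difference of elements of `C`. -/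
lemma C_avoid {c c' : ℝ} (hc : c ∈ C) (hc' : c' ∈ C) (m : ℕ) (s : ℝ) (hs : s = 1 ∨ s = 2)
    (a b : ℕ → Bool) (h : s * ((4 : ℝ)⁻¹ ^ m) * (c - c') = 9 / 4 * (pt a - pt b)) : a = b := by
  by_contra hab
  obtain ⟨δ, rfl⟩ := hc
  obtain ⟨δ', rfl⟩ := hc'
  simp only at h
  have hE : T 4096 (fun k => hat a k - hat b k) ≠ 0 := by
    rw [← T_hat_sub, sub_ne_zero]
    exact fun hh => hab (pt_injective hh)
  have hs0 : 0 < s := by rcases hs with rfl | rfl <;> norm_num
  have h1 : s * (4 : ℝ)⁻¹ ^ m * T 4 (fun k => bit δ k - bit δ' k) =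
      9 * T 4096 (fun k => hat a k - hat b k) := by
    rw [← T_hat_sub, ← T_bit_sub]
    linarith
  have hD : T 4 (fun k => bit δ k - bit δ' k) ≠ 0 := by
    intro h0
    rw [h0, mul_zero] at h1
    apply hE
    linarith
  obtain ⟨K, hK0, hK⟩ := T_ne_zero_first hD
  obtain ⟨L, hL0, hL⟩ := T_ne_zero_first hE
  have hDM : ∀ k, |((bit δ k - bit δ' k : ℤ) : ℝ)| ≤ 1 := by
    intro k
    have h1 := bit_nonneg δ k
    have h2 := bit_le_one δ k
    have h3 := bit_nonneg δ' k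
    have h4 := bit_le_one δ' k
    have : |bit δ k - bit δ' k| ≤ 1 := by rw [abs_le]; omega
    exact_mod_cast this
  have hEM : ∀ k, |((hat a k - hat b k : ℤ) : ℝ)| ≤ 1 := by
    intro k
    have h1 := hat_nonneg a k
    have h2 := hat_le_one a k
    have h3 := hat_nonneg b k
    have h4 := hat_le_one b k
    have : |hat a k - hat b k| ≤ 1 := by rw [abs_le]; omega
    exact_mod_cast this
  have e1 := T_lead2 (b := 4) (by norm_num) (N := fun k => bit δ k - bit δ' k) hDM hK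
  have e2 := T_lead (b := 4096) (by norm_num) (N := fun k => hat a k - hat b k) hEM hL
  set u : ℝ := (4 : ℝ) ^ K * T 4 (fun k => bit δ k - bit δ' k) with hu
  set v : ℝ := (4096 : ℝ) ^ L * T 4096 (fun k => hat a k - hat b k) with hv
  set d0 : ℤ := bit δ K - bit δ' K with hd0
  set d1 : ℤ := bit δ (K + 1) - bit δ' (K + 1) with hd1
  set f0 : ℤ := hat a L - hat b L with hf0
  have hd0' : d0 = 1 ∨ d0 = -1 := by
    have h1 := bit_nonneg δ K
    have h2 := bit_le_one δ K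
    have h3 := bit_nonneg δ' K
    have h4 := bit_le_one δ' K
    have : d0 ≠ 0 := hK0
    omega
  have hd1' : d1 = 1 ∨ d1 = 0 ∨ d1 = -1 := by
    have h1 := bit_nonneg δ (K + 1)
    have h2 := bit_le_one δ (K + 1)
    have h3 := bit_nonneg δ' (K + 1)
    have h4 := bit_le_one δ' (K + 1)
    omega
  have hf0' : f0 = 1 ∨ f0 = -1 := by
    have h1 := hat_nonneg a L
    have h2 := hat_le_one a L
    have h3 := hat_nonneg b L
    have h4 := hat_le_one b L
    have : f0 ≠ 0 := hL0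
    omega
  -- main equation
  have key : 4 * s * u * (4 : ℝ) ^ (6 * L) = 9 * v * (4 : ℝ) ^ (m + K + 1) := by
    rw [hu, hv]
    have e3 : (4096 : ℝ) ^ L = (4 : ℝ) ^ (6 * L) := by
      rw [pow_mul]; norm_num
    rw [e3]
    have e4 : (4 : ℝ) ^ m * (4 : ℝ)⁻¹ ^ m = 1 := by
      rw [← mul_pow, mul_inv_cancel₀ (by norm_num), one_pow]
    have e5 : s * T 4 (fun k => bit δ k - bit δ' k) =
        9 * T 4096 (fun k => hat a k - hat b k) * (4 : ℝ) ^ m := by
      rw [← h1]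
      calc s * T 4 (fun k => bit δ k - bit δ' k)
          = s * T 4 (fun k => bit δ k - bit δ' k) * ((4 : ℝ) ^ m * (4 : ℝ)⁻¹ ^ m) := by
            rw [e4, mul_one]
        _ = _ := by ring
    rw [pow_succ, pow_add]
    calc 4 * s * ((4 : ℝ) ^ K * T 4 (fun k => bit δ k - bit δ' k)) * (4 : ℝ) ^ (6 * L)
        = 4 * (s * T 4 (fun k => bit δ k - bit δ' k)) * (4 : ℝ) ^ K * (4 : ℝ) ^ (6 * L) := by ring
      _ = _ := by rw [e5]; ring
  clear_value u v
  have hU : 2 / 3 ≤ |u| ∧ |u| ≤ 4 / 3 := by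
    have h2 := abs_near e1
    have h3 : (3 : ℝ) / 4 ≤ |(d0 : ℝ) + (d1 : ℝ) / 4| ∧ |(d0 : ℝ) + (d1 : ℝ) / 4| ≤ 5 / 4 := by
      rcases hd0' with h | h <;> rcases hd1' with h' | h' | h' <;> rw [h, h'] <;> push_cast <;>
        norm_num [abs_of_pos, abs_of_neg]
    constructor <;> linarith [h2.1, h2.2, h3.1, h3.2]
  have hV : 4094 / 4095 ≤ |v| ∧ |v| ≤ 4096 / 4095 := by
    have h2 := abs_near e2
    have h3 : |(f0 : ℝ)| = 1 := by
      rcases hf0' with h | h <;> rw [h] <;> simp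
    rw [h3] at h2
    constructor <;> linarith [h2.1, h2.2]
  have keyabs : 4 * s * |u| * (4 : ℝ) ^ (6 * L) = 9 * |v| * (4 : ℝ) ^ (m + K + 1) := by
    have := congrArg abs key
    rw [abs_mul, abs_mul, abs_mul, abs_mul, abs_mul, abs_of_pos hs0,
      abs_of_pos (by positivity : (0 : ℝ) < (4 : ℝ) ^ (6 * L)),
      abs_of_pos (by positivity : (0 : ℝ) < (4 : ℝ) ^ (m + K + 1)),
      abs_of_pos (by norm_num : (0 : ℝ) < 4), abs_of_pos (by norm_num : (0 : ℝ) < 9)] at this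
    exact this
  have hs1 : 1 ≤ s := by rcases hs with rfl | rfl <;> norm_num
  have hs2 : s ≤ 2 := by rcases hs with rfl | rfl <;> norm_num
  rcases lt_trichotomy (m + K + 1) (6 * L) with hlt | heq | hgt
  · obtain ⟨r, hr⟩ := Nat.exists_eq_add_of_lt hlt
    rw [hr] at keyabs
    have hP : (0 : ℝ) < (4 : ℝ) ^ (m + K + 1) := by positivity
    have h6 : (4 : ℝ) ^ (m + K + 1 + r + 1) = (4 : ℝ) ^ (m + K + 1) * ((4 : ℝ) ^ r * 4) := by
      rw [pow_succ, pow_add]; ring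
    rw [h6] at keyabs
    have h7 : 4 * s * |u| * ((4 : ℝ) ^ r * 4) = 9 * |v| := by
      have h8 : (4 : ℝ) ^ (m + K + 1) * (4 * s * |u| * ((4 : ℝ) ^ r * 4)) =
          (4 : ℝ) ^ (m + K + 1) * (9 * |v|) := by linarith
      exact mul_left_cancel₀ hP.ne' h8
    have h9 : (1 : ℝ) ≤ (4 : ℝ) ^ r := one_le_pow₀ (by norm_num)
    have h10 : (2 : ℝ) / 3 ≤ s * |u| := by nlinarith [hU.1, abs_nonneg u]
    have h11 : (2 : ℝ) / 3 * 1 ≤ (s * |u|) * (4 : ℝ) ^ r :=
      mul_le_mul h10 h9 (by norm_num) (by positivity)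
    linarith [hV.2]
  · rw [heq] at key
    have hP : (0 : ℝ) < (4 : ℝ) ^ (6 * L) := by positivity
    have h7 : 4 * s * u = 9 * v := mul_right_cancel₀ hP.ne' key
    rw [abs_le] at e1 e2
    obtain ⟨p1, p2⟩ := e1
    obtain ⟨q1, q2⟩ := e2
    rcases hs with rfl | rfl <;> rcases hd0' with h | h <;> rcases hd1' with h' | h' | h' <;>
      rcases hf0' with h'' | h'' <;> rw [h, h'] at p1 p2 <;> rw [h''] at q1 q2 <;>
      push_cast at p1 p2 q1 q2 <;> norm_num at p1 p2 q1 q2 <;> linarith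
  · obtain ⟨r, hr⟩ := Nat.exists_eq_add_of_lt hgt
    rw [hr] at keyabs
    have hP : (0 : ℝ) < (4 : ℝ) ^ (6 * L) := by positivity
    have h6 : (4 : ℝ) ^ (6 * L + r + 1) = (4 : ℝ) ^ (6 * L) * ((4 : ℝ) ^ r * 4) := by
      rw [pow_succ, pow_add]; ring
    rw [h6] at keyabs
    have h7 : 4 * s * |u| = 9 * |v| * ((4 : ℝ) ^ r * 4) := by
      have h8 : (4 : ℝ) ^ (6 * L) * (4 * s * |u|) =
          (4 : ℝ) ^ (6 * L) * (9 * |v| * ((4 : ℝ) ^ r * 4)) := by linarith
      exact mul_left_cancel₀ hP.ne' h8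
    have h9 : (1 : ℝ) ≤ (4 : ℝ) ^ r := one_le_pow₀ (by norm_num)
    have h10 : s * |u| ≤ 2 * (4 / 3) := mul_le_mul hs2 hU.2 (abs_nonneg _) (by norm_num)
    have h11 : (4094 : ℝ) / 4095 * 1 ≤ |v| * (4 : ℝ) ^ r :=
      mul_le_mul hV.1 h9 (by norm_num) (abs_nonneg _)
    linarith

end Pool.Agent.V11242.BT
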