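import Mathlib

/-!
# Bounded integer digit expansions

`T b N = ∑ N k / b^k` for bounded integer digit sequences `N`.
-/

namespace Pool.Agent.V11242.BT

/-- The value of the digit sequence `N` in base `b`. -/
noncomputable def T (b : ℝ) (N : ℕ → ℤ) : ℝ := ∑' k, (N k : ℝ) * (b⁻¹) ^ k

lemma summable_T {b : ℝ} (hb : 1 < b) {N : ℕ → ℤ} {M : ℝ} (hM : ∀ k, |(N k : ℝ)| ≤ M) :
    Summable fun k => (N k : ℝ) * (b⁻¹) ^ k := by
  have hb0 : 0 < b := by linarith
  have hi0 : 0 ≤ b⁻¹ := by positivity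
  have hi1 : b⁻¹ < 1 := inv_lt_one_of_one_lt₀ hb
  refine Summable.of_norm_bounded (g := fun k => M * (b⁻¹) ^ k)
    ((summable_geometric_of_lt_one hi0 hi1).mul_left M) ?_
  intro k
  rw [Real.norm_eq_abs, abs_mul, abs_of_nonneg (pow_nonneg hi0 k)]
  exact mul_le_mul_of_nonneg_right (hM k) (pow_nonneg hi0 k)

lemma abs_T_le {b : ℝ} (hb : 1 < b) {N : ℕ → ℤ} {M : ℝ} (hM : ∀ k, |(N k : ℝ)| ≤ M) :
    |T b N| ≤ M * (b / (b - 1)) := by
  have hb0 : 0 < b := by linarith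
  have hi0 : 0 ≤ b⁻¹ := by positivity
  have hi1 : b⁻¹ < 1 := inv_lt_one_of_one_lt₀ hb
  have hg := (summable_geometric_of_lt_one hi0 hi1).mul_left M
  have h1 : ∀ k, ‖(N k : ℝ) * (b⁻¹) ^ k‖ ≤ M * (b⁻¹) ^ k := by
    intro k
    rw [Real.norm_eq_abs, abs_mul, abs_of_nonneg (pow_nonneg hi0 k)]
    exact mul_le_mul_of_nonneg_right (hM k) (pow_nonneg hi0 k)
  have h2 := tsum_of_norm_bounded hg.hasSum h1
  rw [Real.norm_eq_abs, tsum_mul_left, tsum_geometric_of_lt_one hi0 hi1] at h2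
  have h3 : (1 - b⁻¹)⁻¹ = b / (b - 1) := by
    have : b - 1 ≠ 0 := by linarith
    field_simp
  rw [h3] at h2
  exact h2

lemma T_split {b : ℝ} (hb : 1 < b) {N : ℕ → ℤ} {M : ℝ} (hM : ∀ k, |(N k : ℝ)| ≤ M) (n : ℕ) :
    T b N = ∑ k ∈ Finset.range n, (N k : ℝ) * (b⁻¹) ^ k +
      (b⁻¹) ^ n * T b (fun k => N (k + n)) := by
  have hs := summable_T hb hM
  have := hs.sum_add_tsum_nat_add n
  unfold T
  rw [← this, ← tsum_mul_left]
  congr 1
  apply tsum_congr
  intro k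
  rw [pow_add]
  ring

lemma T_eq_zero {b : ℝ} (hb : 1 < b) {N : ℕ → ℤ} {M : ℝ} (hM : ∀ k, |(N k : ℝ)| ≤ M)
    (hMb : M < b - 1) (h0 : T b N = 0) : ∀ k, N k = 0 := by
  intro k
  induction k using Nat.strong_induction_on with
  | _ K ih =>
    have hb0 : 0 < b := by linarith
    have h1 := T_split hb hM (K + 1)
    rw [h0, Finset.sum_range_succ, Finset.sum_eq_zero, zero_add] at h1
    · have h2 : |T b (fun k => N (k + (K + 1)))| ≤ M * (b / (b - 1)) :=
        abs_T_le hb (fun k => hM _)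
      have hi0 : 0 < b⁻¹ := by positivity
      have h3 : (N K : ℝ) = - (b⁻¹ * T b (fun k => N (k + (K + 1)))) := by
        have h4 : (b⁻¹) ^ K * ((N K : ℝ) + b⁻¹ * T b (fun k => N (k + (K + 1)))) = 0 := by
          rw [h1, pow_succ]; ring
        have h5 : (b⁻¹) ^ K ≠ 0 := (pow_pos hi0 K).ne'
        have h6 := (mul_eq_zero.mp h4).resolve_left h5
        linarith
      have h4 : |(N K : ℝ)| < 1 := by
        rw [h3, abs_neg, abs_mul, abs_of_pos hi0]
        have h5 : b⁻¹ * |T b (fun k => N (k + (K + 1)))| ≤ b⁻¹ * (M * (b / (b - 1))) :=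
          mul_le_mul_of_nonneg_left h2 hi0.le
        have h6 : b⁻¹ * (M * (b / (b - 1))) = M / (b - 1) := by
          have : b - 1 ≠ 0 := by linarith
          field_simp
        have h7 : M / (b - 1) < 1 := by
          rw [div_lt_one (by linarith)]
          exact hMb
        linarith
      have h5 : |N K| < 1 := by exact_mod_cast h4
      exact Int.abs_lt_one_iff.mp h5
    · intro k hk
      rw [ih k (Finset.mem_range.mp hk)]
      simp

/-- Leading digit estimate. -/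
lemma T_lead {b : ℝ} (hb : 1 < b) {N : ℕ → ℤ} {M : ℝ} (hM : ∀ k, |(N k : ℝ)| ≤ M) {K : ℕ}
    (hK : ∀ k < K, N k = 0) :
    |b ^ K * T b N - N K| ≤ M / (b - 1) := by
  have hb0 : 0 < b := by linarith
  have h1 := T_split hb hM (K + 1)
  rw [Finset.sum_range_succ, Finset.sum_eq_zero, zero_add] at h1
  · have h2 : |T b (fun k => N (k + (K + 1)))| ≤ M * (b / (b - 1)) :=
      abs_T_le hb (fun k => hM _)
    have hi0 : 0 < b⁻¹ := by positivity
    have h3 : b ^ K * T b N - N K = b⁻¹ * T b (fun k => N (k + (K + 1))) := by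
      rw [h1, pow_succ]
      have h4 : b ^ K * (b⁻¹) ^ K = 1 := by
        rw [← mul_pow, mul_inv_cancel₀ hb0.ne', one_pow]
      calc b ^ K * ((N K : ℝ) * b⁻¹ ^ K + b⁻¹ ^ K * b⁻¹ * T b (fun k => N (k + (K + 1)))) - N K
          = (b ^ K * (b⁻¹) ^ K) * ((N K : ℝ) + b⁻¹ * T b (fun k => N (k + (K + 1)))) - N K := by
            ring
        _ = _ := by rw [h4]; ring
    rw [h3, abs_mul, abs_of_pos hi0]
    have h5 : b⁻¹ * |T b (fun k => N (k + (K + 1)))| ≤ b⁻¹ * (M * (b / (b - 1))) :=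
      mul_le_mul_of_nonneg_left h2 hi0.le
    have h6 : b⁻¹ * (M * (b / (b - 1))) = M / (b - 1) := by
      have : b - 1 ≠ 0 := by linarith
      field_simp
    linarith
  · intro k hk
    rw [hK k (Finset.mem_range.mp hk)]
    simp

/-- Two-digit estimate. -/
lemma T_lead2 {b : ℝ} (hb : 1 < b) {N : ℕ → ℤ} {M : ℝ} (hM : ∀ k, |(N k : ℝ)| ≤ M) {K : ℕ}
    (hK : ∀ k < K, N k = 0) :
    |b ^ K * T b N - (N K + N (K + 1) / b)| ≤ M / ((b - 1) * b) := by
  have hb0 : 0 < b := by linarith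
  have h1 := T_split hb hM (K + 1 + 1)
  rw [Finset.sum_range_succ, Finset.sum_range_succ, Finset.sum_eq_zero, zero_add] at h1
  · have h2 : |T b (fun k => N (k + (K + 1 + 1)))| ≤ M * (b / (b - 1)) :=
      abs_T_le hb (fun k => hM _)
    have hi0 : 0 < b⁻¹ := by positivity
    have h3 : b ^ K * T b N - (N K + N (K + 1) / b) =
        b⁻¹ * b⁻¹ * T b (fun k => N (k + (K + 1 + 1))) := by
      rw [h1, pow_succ, pow_succ]
      have h4 : b ^ K * (b⁻¹) ^ K = 1 := by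
        rw [← mul_pow, mul_inv_cancel₀ hb0.ne', one_pow]
      calc b ^ K * ((N K : ℝ) * b⁻¹ ^ K + (N (K + 1) : ℝ) * (b⁻¹ ^ K * b⁻¹) +
            b⁻¹ ^ K * b⁻¹ * b⁻¹ * T b (fun k => N (k + (K + 1 + 1)))) - (N K + N (K + 1) / b)
          = (b ^ K * (b⁻¹) ^ K) * ((N K : ℝ) + N (K + 1) * b⁻¹ +
              b⁻¹ * b⁻¹ * T b (fun k => N (k + (K + 1 + 1)))) - (N K + N (K + 1) / b) := by
            ring
        _ = _ := by rw [h4]; ring
    rw [h3, abs_mul, abs_of_pos (by positivity)]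
    have h5 : b⁻¹ * b⁻¹ * |T b (fun k => N (k + (K + 1 + 1)))| ≤
        b⁻¹ * b⁻¹ * (M * (b / (b - 1))) :=
      mul_le_mul_of_nonneg_left h2 (by positivity)
    have h6 : b⁻¹ * b⁻¹ * (M * (b / (b - 1))) = M / ((b - 1) * b) := by
      have : b - 1 ≠ 0 := by linarith
      field_simp
    linarith
  · intro k hk
    rw [hK k (Finset.mem_range.mp hk)]
    simp

lemma continuous_T {X : Type*} [TopologicalSpace X] {b : ℝ} (hb : 1 < b) {N : X → ℕ → ℤ} {M : ℝ}
    (hM : ∀ x k, |(N x k : ℝ)| ≤ M) (hc : ∀ k, Continuous fun x => N x k) :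
    Continuous fun x => T b (N x) := by
  have hb0 : 0 < b := by linarith
  have hi0 : 0 ≤ b⁻¹ := by positivity
  have hi1 : b⁻¹ < 1 := inv_lt_one_of_one_lt₀ hb
  unfold T
  refine continuous_tsum (u := fun k => M * (b⁻¹) ^ k) ?_
    ((summable_geometric_of_lt_one hi0 hi1).mul_left M) ?_
  · intro k
    exact (continuous_of_discreteTopology.comp (hc k)).mul continuous_const
  · intro k x
    rw [Real.norm_eq_abs, abs_mul, abs_of_nonneg (pow_nonneg hi0 k)]
    exact mul_le_mul_of_nonneg_right (hM x k) (pow_nonneg hi0 k)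

lemma T_ne_zero_first {b : ℝ} {N : ℕ → ℤ} (h : T b N ≠ 0) :
    ∃ K, N K ≠ 0 ∧ ∀ k < K, N k = 0 := by
  classical
  have h1 : ∃ k, N k ≠ 0 := by
    by_contra hc
    push Not at hc
    apply h
    unfold T
    simp [hc]
  refine ⟨Nat.find h1, Nat.find_spec h1, fun k hk => ?_⟩
  have := Nat.find_min h1 hk
  push Not at this
  exact this

end Pool.Agent.V11242.BT
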