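import Pool.Agent.V11242.BT.Digits

/-!
# Branch codes

`hat a` is the characteristic sequence of the set of (codes of) initial segments of `a`.
The sequences `hat a` are linearly independent in a strong sense, and `pt a = T 4096 (hat a)` is
a real number from whose differences one can read off both points.
-/

namespace Pool.Agent.V11242.BT

open Classical in
/-- The code of the initial segment of length `n` of `a`. -/
def code (a : ℕ → Bool) (n : ℕ) : ℕ := Encodable.encode (List.ofFn fun i : Fin n => a i)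

open Classical in
/-- Characteristic sequence of the set of codes of initial segments of `a`. -/
noncomputable def hat (a : ℕ → Bool) (k : ℕ) : ℤ := if ∃ n, code a n = k then 1 else 0

lemma code_eq {a b : ℕ → Bool} {n m : ℕ} (h : code a n = code b m) :
    n = m ∧ ∀ i < n, a i = b i := by
  unfold code at h
  have h1 := Encodable.encode_injective h
  have h2 : n = m := by
    have := congrArg List.length h1
    simpa using this
  subst h2
  refine ⟨rfl, fun i hi => ?_⟩
  have h3 := List.ofFn_injective h1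
  exact congrFun h3 ⟨i, hi⟩

lemma code_congr {a b : ℕ → Bool} {n : ℕ} (h : ∀ i < n, a i = b i) : code a n = code b n := by
  unfold code
  congr 1
  congr 1
  funext i
  exact h i i.2

lemma hat_nonneg (a : ℕ → Bool) (k : ℕ) : 0 ≤ hat a k := by
  unfold hat; split_ifs <;> simp

lemma hat_le_one (a : ℕ → Bool) (k : ℕ) : hat a k ≤ 1 := by
  unfold hat; split_ifs <;> simp

lemma hat_self (a : ℕ → Bool) (n : ℕ) : hat a (code a n) = 1 := by
  unfold hat; rw [if_pos ⟨n, rfl⟩]

lemma hat_code_of_ne {a b : ℕ → Bool} {n : ℕ} (h : ∃ i < n, a i ≠ b i) :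
    hat b (code a n) = 0 := by
  unfold hat
  rw [if_neg]
  rintro ⟨m, hm⟩
  obtain ⟨h1, h2⟩ := code_eq hm
  obtain ⟨i, hi, hne⟩ := h
  subst h1
  exact hne (h2 i hi).symm

lemma agree_of_hat {a b : ℕ → Bool} {n : ℕ} (h : hat b (code a n) ≠ 0) : ∀ i < n, a i = b i := by
  intro i hi
  by_contra hc
  exact h (hat_code_of_ne ⟨i, hi, hc⟩)

lemma exists_diff {a b : ℕ → Bool} (h : a ≠ b) : ∃ n, ∀ m ≥ n, hat b (code a m) = 0 := by
  obtain ⟨i, hi⟩ := Function.ne_iff.mp h
  exact ⟨i + 1, fun m hm => hat_code_of_ne ⟨i, by omega, hi⟩⟩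

lemma hat_injective : Function.Injective hat := by
  intro a b h
  funext i
  have h1 : hat b (code a (i + 1)) = 1 := by rw [← h]; exact hat_self a (i + 1)
  exact agree_of_hat (by rw [h1]; norm_num) i (by omega)

lemma eq_of_hat_ne {a b : ℕ → Bool} {n₀ : ℕ} (h : ∀ n ≥ n₀, hat b (code a n) ≠ 0) : a = b := by
  funext i
  exact agree_of_hat (h (max n₀ (i + 1)) (le_max_left _ _)) i
    (lt_of_lt_of_le (Nat.lt_succ_self i) (le_max_right _ _))

lemma dich {a b a' b' u v : ℕ → Bool}
    (h : ∀ k, hat a k + hat b' k + hat v k = hat a' k + hat b k + hat u k)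
    (hab : a ≠ b) (hab' : a' ≠ b') : a = a' ∨ b = b' := by
  by_cases haa : a = a'
  · exact Or.inl haa
  right
  obtain ⟨n₁, h₁⟩ := exists_diff haa
  obtain ⟨n₂, h₂⟩ := exists_diff hab
  have hau : a = u := by
    refine eq_of_hat_ne (n₀ := max n₁ n₂) fun n hn => ?_
    have e1 := h₁ n (le_trans (le_max_left _ _) hn)
    have e2 := h₂ n (le_trans (le_max_right _ _) hn)
    have e3 := h (code a n)
    have e4 := hat_self a n
    have e5 := hat_nonneg b' (code a n)
    have e6 := hat_nonneg v (code a n)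
    omega
  subst hau
  by_contra hbb
  obtain ⟨m₁, k₁⟩ := exists_diff (Ne.symm hab')
  obtain ⟨m₂, k₂⟩ := exists_diff (Ne.symm hbb)
  have e1 := k₁ (max m₁ m₂) (le_max_left _ _)
  have e2 := k₂ (max m₁ m₂) (le_max_right _ _)
  have e3 := h (code b' (max m₁ m₂))
  have e4 := hat_self b' (max m₁ m₂)
  have e6 := hat_nonneg v (code b' (max m₁ m₂))
  omega

lemma uniq {a b c d : ℕ → Bool} (h : ∀ k, hat a k + hat d k = hat c k + hat b k) (hab : a ≠ b) :
    a = c ∧ b = d := by
  obtain ⟨n₂, h₂⟩ := exists_diff hab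
  have hau : a = c := by
    refine eq_of_hat_ne (n₀ := n₂) fun n hn => ?_
    have e2 := h₂ n hn
    have e3 := h (code a n)
    have e4 := hat_self a n
    have e5 := hat_nonneg d (code a n)
    omega
  subst hau
  refine ⟨rfl, hat_injective ?_⟩
  funext k
  have := h k
  omega

lemma continuous_hat (k : ℕ) : Continuous fun a : ℕ → Bool => hat a k := by
  classical
  by_cases hk : ∃ l : List Bool, Encodable.encode l = k
  · obtain ⟨l, rfl⟩ := hk
    have : (fun a : ℕ → Bool => hat a (Encodable.encode l)) =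
        (fun s : Fin l.length → Bool => if List.ofFn s = l then (1 : ℤ) else 0) ∘
          (fun a : ℕ → Bool => fun i : Fin l.length => a i) := by
      funext a
      simp only [Function.comp_apply]
      unfold hat
      congr 1
      apply propext
      constructor
      · rintro ⟨n, hn⟩
        have h1 := Encodable.encode_injective hn
        have h2 : n = l.length := by
          have := congrArg List.length h1
          simpa using this
        subst h2
        exact h1
      · intro h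
        exact ⟨l.length, by unfold code; rw [h]⟩
    rw [this]
    refine Continuous.comp continuous_of_discreteTopology ?_
    exact continuous_pi fun i => continuous_apply _
  · have : (fun a : ℕ → Bool => hat a k) = fun _ => 0 := by
      funext a
      unfold hat
      rw [if_neg]
      rintro ⟨n, hn⟩
      exact hk ⟨_, hn⟩
    rw [this]
    exact continuous_const

/-- The real number coding `a`. -/
noncomputable def pt (a : ℕ → Bool) : ℝ := T 4096 (hat a)

lemma hat_abs (a : ℕ → Bool) (k : ℕ) : |(hat a k : ℝ)| ≤ 1 := by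
  have h1 := hat_nonneg a k
  have h2 := hat_le_one a k
  rw [abs_le]
  constructor
  · have : (0 : ℝ) ≤ hat a k := by exact_mod_cast h1
    linarith
  · exact_mod_cast h2

lemma continuous_pt : Continuous pt :=
  continuous_T (by norm_num) hat_abs continuous_hat

lemma hasSum_pt (a : ℕ → Bool) :
    HasSum (fun k => (hat a k : ℝ) * ((4096 : ℝ)⁻¹) ^ k) (pt a) :=
  (summable_T (by norm_num) (hat_abs a)).hasSum

/-- Linear relations between few coded points come from relations between the digit sequences. -/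
lemma comb {n : ℕ} (c : Fin n → ℤ) (x : Fin n → (ℕ → Bool)) (hc : ∑ i, |c i| ≤ 4094)
    (h : ∑ i, (c i : ℝ) * pt (x i) = 0) (k : ℕ) : ∑ i, c i * hat (x i) k = 0 := by
  have h1 : T 4096 (fun k => ∑ i, c i * hat (x i) k) = 0 := by
    have h2 : HasSum (fun k => ∑ i, (c i : ℝ) * ((hat (x i) k : ℝ) * ((4096 : ℝ)⁻¹) ^ k))
        (∑ i, (c i : ℝ) * pt (x i)) :=
      hasSum_sum fun i _ => (hasSum_pt (x i)).mul_left (c i : ℝ)
    rw [h] at h2
    have h3 : (fun k => ∑ i, (c i : ℝ) * ((hat (x i) k : ℝ) * ((4096 : ℝ)⁻¹) ^ k)) =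
        fun k => ((∑ i, c i * hat (x i) k : ℤ) : ℝ) * ((4096 : ℝ)⁻¹) ^ k := by
      funext k
      push_cast
      rw [Finset.sum_mul]
      apply Finset.sum_congr rfl
      intro i _
      ring
    rw [h3] at h2
    exact h2.tsum_eq
  refine T_eq_zero (b := 4096) (by norm_num) (M := 4094) ?_ (by norm_num) h1 k
  intro k
  have h4 : |∑ i, c i * hat (x i) k| ≤ 4094 := by
    refine le_trans (Finset.abs_sum_le_sum_abs _ _) (le_trans (Finset.sum_le_sum fun i _ => ?_) hc)
    rw [abs_mul]
    have h5 : |hat (x i) k| ≤ 1 := by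
      have h6 := hat_nonneg (x i) k
      have h7 := hat_le_one (x i) k
      rw [abs_le]; omega
    calc |c i| * |hat (x i) k| ≤ |c i| * 1 := mul_le_mul_of_nonneg_left h5 (abs_nonneg _)
      _ = |c i| := mul_one _
  exact_mod_cast h4

lemma comb4 (c₁ c₂ c₃ c₄ : ℤ) (x₁ x₂ x₃ x₄ : ℕ → Bool)
    (hc : |c₁| + |c₂| + |c₃| + |c₄| ≤ 4094)
    (h : (c₁ : ℝ) * pt x₁ + c₂ * pt x₂ + c₃ * pt x₃ + c₄ * pt x₄ = 0) (k : ℕ) :
    c₁ * hat x₁ k + c₂ * hat x₂ k + c₃ * hat x₃ k + c₄ * hat x₄ k = 0 := by
  have := comb ![c₁, c₂, c₃, c₄] ![x₁, x₂, x₃, x₄]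
    (by simp [Fin.sum_univ_succ]; linarith) (by simp [Fin.sum_univ_succ]; linarith) k
  simp [Fin.sum_univ_succ] at this
  linarith

lemma comb6 (c₁ c₂ c₃ c₄ c₅ c₆ : ℤ) (x₁ x₂ x₃ x₄ x₅ x₆ : ℕ → Bool)
    (hc : |c₁| + |c₂| + |c₃| + |c₄| + |c₅| + |c₆| ≤ 4094)
    (h : (c₁ : ℝ) * pt x₁ + c₂ * pt x₂ + c₃ * pt x₃ + c₄ * pt x₄ + c₅ * pt x₅ + c₆ * pt x₆ = 0)
    (k : ℕ) :
    c₁ * hat x₁ k + c₂ * hat x₂ k + c₃ * hat x₃ k + c₄ * hat x₄ k + c₅ * hat x₅ k +
      c₆ * hat x₆ k = 0 := by
  have := comb ![c₁, c₂, c₃, c₄, c₅, c₆] ![x₁, x₂, x₃, x₄, x₅, x₆]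
    (by simp [Fin.sum_univ_succ]; linarith) (by simp [Fin.sum_univ_succ]; linarith) k
  simp [Fin.sum_univ_succ] at this
  linarith

lemma pt_injective : Function.Injective pt := by
  intro a b h
  apply hat_injective
  funext k
  have := comb4 1 (-1) 0 0 a b a a (by norm_num) (by push_cast; rw [h]; ring) k
  linarith

lemma pt_uniq {a b c d : ℕ → Bool} (h : pt a - pt b = pt c - pt d) (hab : a ≠ b) :
    a = c ∧ b = d := by
  refine uniq (fun k => ?_) hab
  have := comb4 1 (-1) (-1) 1 a b c d (by norm_num) (by push_cast; linarith) k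
  linarith

lemma pt_dich {a b a' b' u v : ℕ → Bool}
    (h : (pt a - pt b) - (pt a' - pt b') = pt u - pt v)
    (hab : a ≠ b) (hab' : a' ≠ b') : a = a' ∨ b = b' := by
  refine dich (u := u) (v := v) (fun k => ?_) hab hab'
  have := comb6 1 (-1) (-1) 1 (-1) 1 a b a' b' u v (by norm_num) (by push_cast; linarith) k
  linarith

lemma pt_nonneg (a : ℕ → Bool) : 0 ≤ pt a := by
  apply tsum_nonneg
  intro k
  have h1 : (0 : ℝ) ≤ hat a k := by exact_mod_cast hat_nonneg a k
  positivity

lemma pt_le (a : ℕ → Bool) : pt a ≤ 4096 / 4095 := by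
  have := abs_T_le (b := 4096) (by norm_num) (hat_abs a)
  have h2 := le_trans (le_abs_self _) this
  norm_num at h2
  exact h2

end Pool.Agent.V11242.BT
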