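import Pool.Agent.V11242.BT.Cantor

/-!
# A Borel set of reals with exactly `ℵ₁` pairwise disjoint translates
-/

namespace Pool.Agent.V11242.BT

open Cardinal Set

/-! ## The column graph -/

/-- The `n`-th column of `y`. -/
def col (y : ℕ → Bool) (n : ℕ) : ℕ → Bool := fun k => y (Nat.pair n k)

/-- Two distinct points, one of which is a column of the other. -/
def Adj (x y : ℕ → Bool) : Prop := x ≠ y ∧ ((∃ n, col y n = x) ∨ (∃ n, col x n = y))

lemma Adj.symm {x y : ℕ → Bool} (h : Adj x y) : Adj y x := ⟨h.1.symm, h.2.symm⟩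

lemma not_countable_univ : ¬ (Set.univ : Set (ℕ → Bool)).Countable := by
  intro h
  have h1 := Cardinal.le_aleph0_iff_set_countable.mpr h
  rw [Cardinal.mk_univ] at h1
  have h2 : Cardinal.mk (ℕ → Bool) = 𝔠 := by simp
  rw [h2] at h1
  exact absurd h1 (not_le.mpr Cardinal.aleph0_lt_continuum)

lemma exists_clique : ∃ K : Set (ℕ → Bool), ¬ K.Countable ∧ K.Pairwise Adj := by
  obtain ⟨K, hK⟩ := zorn_subset {K : Set (ℕ → Bool) | K.Pairwise Adj} (by
    intro c hc hchain
    refine ⟨⋃₀ c, ?_, fun s hs => subset_sUnion_of_mem hs⟩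
    rw [mem_ofPred_eq, Set.pairwise_sUnion hchain.directedOn]
    exact fun s hs => hc hs)
  refine ⟨K, ?_, hK.prop⟩
  intro hcount
  obtain ⟨f, hf⟩ : ∃ f : ℕ → (ℕ → Bool), K ⊆ range f := by
    rcases K.eq_empty_or_nonempty with rfl | hne
    · exact ⟨fun _ _ => false, empty_subset _⟩
    · obtain ⟨f, hf⟩ := hcount.exists_eq_range hne
      exact ⟨f, hf.subset⟩
  let Y : (ℕ → Bool) → (ℕ → Bool) := fun z k =>
    if (Nat.unpair k).1 = 0 then z (Nat.unpair k).2 else f ((Nat.unpair k).1 - 1) (Nat.unpair k).2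
  have hY0 : ∀ z, col (Y z) 0 = z := by
    intro z
    funext k
    simp [col, Y]
  have hYn : ∀ z n, col (Y z) (n + 1) = f n := by
    intro z n
    funext k
    simp [col, Y]
  have hYinj : Function.Injective Y := by
    intro z z' h
    rw [← hY0 z, ← hY0 z', h]
  obtain ⟨z, hz⟩ : ∃ z, Y z ∉ K := by
    by_contra hc
    push Not at hc
    have h1 : (Y ⁻¹' K).Countable := hcount.preimage_of_injOn hYinj.injOn
    have h2 : Y ⁻¹' K = Set.univ := eq_univ_of_forall hc
    rw [h2] at h1
    exact not_countable_univ h1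
  have h1 : (insert (Y z) K).Pairwise Adj := by
    rw [Set.pairwise_insert]
    refine ⟨hK.prop, fun x hx _ => ?_⟩
    obtain ⟨n, hn⟩ := hf hx
    have h2 : Adj (Y z) x := by
      refine ⟨fun h => hz (h ▸ hx), Or.inr ⟨n + 1, ?_⟩⟩
      rw [hYn, hn]
    exact ⟨h2, h2.symm⟩
  have h2 := hK.le_of_ge h1 (subset_insert _ _)
  exact hz (h2 (mem_insert _ _))

lemma clique_le {K : Set (ℕ → Bool)} (hK : K.Pairwise Adj) : #K ≤ ℵ_ 1 := by
  by_contra hlt
  push Not at hlt
  obtain ⟨A, hAK, hA⟩ := Cardinal.le_mk_iff_exists_subset.mp hlt.le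
  let W : Set (ℕ → Bool) := A ∪ ⋃ y ∈ A, range (col y)
  have hW : #W ≤ ℵ_ 1 := by
    refine le_trans (mk_union_le _ _) ?_
    have h1 : #(⋃ y ∈ A, range (col y) : Set (ℕ → Bool)) ≤ ℵ_ 1 := by
      rw [biUnion_eq_iUnion]
      refine le_trans (mk_iUnion_le _) ?_
      have h2 : (⨆ i : A, #(range (col i.1))) ≤ ℵ₀ := by
        apply ciSup_le'
        intro i
        exact Cardinal.mk_le_aleph0_iff.mpr (countable_range _).to_subtype
      calc #A * (⨆ i : A, #(range (col i.1))) ≤ ℵ_ 1 * ℵ₀ := mul_le_mul' hA.le h2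
        _ = ℵ_ 1 := by
          rw [Cardinal.mul_aleph0_eq (Cardinal.aleph0_le_aleph 1)]
    rw [hA]
    calc ℵ_ 1 + #(⋃ y ∈ A, range (col y) : Set (ℕ → Bool)) ≤ ℵ_ 1 + ℵ_ 1 := by gcongr
      _ = ℵ_ 1 := Cardinal.add_eq_self (Cardinal.aleph0_le_aleph 1)
  obtain ⟨x, hxK, hxW⟩ : ∃ x ∈ K, x ∉ W := by
    by_contra hc
    push Not at hc
    exact absurd (le_trans (mk_le_mk_of_subset hc) hW) (not_le.mpr hlt)
  have h1 : A ⊆ range (col x) := by
    intro y hy
    have hxy : x ≠ y := fun h => hxW (Or.inl (h ▸ hy))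
    rcases (hK hxK (hAK hy) hxy).2 with h | h
    · exfalso
      apply hxW
      right
      exact mem_biUnion hy h
    · exact h
  have h2 : A.Countable := (countable_range _).mono h1
  have h3 : #A ≤ ℵ₀ := Cardinal.le_aleph0_iff_set_countable.mpr h2
  rw [hA] at h3
  exact absurd h3 (not_le.mpr Cardinal.aleph0_lt_aleph_one)

lemma clique_image_le {X : Set ℝ} (g : ℝ → (ℕ → Bool))
    (hg : ∀ x ∈ X, ∀ y ∈ X, x ≠ y → Adj (g x) (g y)) : #X ≤ ℵ_ 1 := by
  have hinj : InjOn g X := by
    intro x hx y hy h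
    by_contra hxy
    exact (hg x hx y hy hxy).1 h
  have h1 : (g '' X).Pairwise Adj := by
    rintro _ ⟨x, hx, rfl⟩ _ ⟨y, hy, rfl⟩ hne
    exact hg x hx y hy (fun h => hne (by rw [h]))
  have h2 := clique_le h1
  have h3 := Cardinal.mk_image_eq_of_injOn_lift g X hinj
  simp only [Cardinal.lift_id] at h3
  rw [h3] at h2
  exact h2

/-! ## The pieces of the Borel set -/

/-- The coded point. -/
noncomputable def p (x : ℕ → Bool) : ℝ := 9 / 4 * pt x

noncomputable def F (x y : ℕ → Bool) : ℝ := 9 / 4 * (pt x + pt x / 16 + pt y / 256)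
noncomputable def G (x y : ℕ → Bool) : ℝ := 9 / 4 * (pt y + pt x / 16 + pt y / 256)

/-- Pairs of distinct nonadjacent points. -/
def S : Set ((ℕ → Bool) × (ℕ → Bool)) :=
  {q | q.1 ≠ q.2 ∧ (∀ n, col q.2 n ≠ q.1) ∧ (∀ n, col q.1 n ≠ q.2)}

lemma mem_S_iff {x y : ℕ → Bool} (h : x ≠ y) : (x, y) ∈ S ↔ ¬ Adj x y := by
  unfold S Adj
  simp only [mem_ofPred_eq, ne_eq]
  push Not
  tauto

lemma continuous_col (n : ℕ) : Continuous fun y : ℕ → Bool => col y n :=
  continuous_pi fun _ => continuous_apply _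

lemma measurableSet_S : MeasurableSet S := by
  have h1 : MeasurableSet {q : (ℕ → Bool) × (ℕ → Bool) | q.1 = q.2} :=
    (isClosed_eq continuous_fst continuous_snd).measurableSet
  have h2 : ∀ n, MeasurableSet {q : (ℕ → Bool) × (ℕ → Bool) | col q.2 n = q.1} := fun n =>
    (isClosed_eq ((continuous_col n).comp continuous_snd) continuous_fst).measurableSet
  have h3 : ∀ n, MeasurableSet {q : (ℕ → Bool) × (ℕ → Bool) | col q.1 n = q.2} := fun n =>
    (isClosed_eq ((continuous_col n).comp continuous_fst) continuous_snd).measurableSet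
  have h4 : S = {q | q.1 = q.2}ᶜ ∩ ((⋂ n, {q | col q.2 n = q.1}ᶜ) ∩
      (⋂ n, {q | col q.1 n = q.2}ᶜ)) := by
    ext q
    simp [S]
  rw [h4]
  exact h1.compl.inter ((MeasurableSet.iInter fun n => (h2 n).compl).inter
    (MeasurableSet.iInter fun n => (h3 n).compl))

lemma F_uniq {x y x' y' u v : ℕ → Bool} (h : F x y - F x' y' = p u - p v) :
    F x y - F x' y' = 0 ∧ x = x' ∧ y = y' := by
  unfold F p at h
  have h1 := comb6 272 1 (-272) (-1) (-256) 256 x y x' y' u v (by norm_num)
    (by push_cast; linarith)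
  have hx : x = x' := by
    apply hat_injective
    funext k
    have := h1 k
    have a1 := hat_nonneg x k
    have a2 := hat_le_one x k
    have a3 := hat_nonneg y k
    have a4 := hat_le_one y k
    have a5 := hat_nonneg x' k
    have a6 := hat_le_one x' k
    have a7 := hat_nonneg y' k
    have a8 := hat_le_one y' k
    have a9 := hat_nonneg u k
    have a10 := hat_le_one u k
    have a11 := hat_nonneg v k
    have a12 := hat_le_one v k
    omega
  have hy : y = y' := by
    apply hat_injective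
    funext k
    have := h1 k
    have a1 := hat_nonneg x k
    have a2 := hat_le_one x k
    have a3 := hat_nonneg y k
    have a4 := hat_le_one y k
    have a5 := hat_nonneg x' k
    have a6 := hat_le_one x' k
    have a7 := hat_nonneg y' k
    have a8 := hat_le_one y' k
    have a9 := hat_nonneg u k
    have a10 := hat_le_one u k
    have a11 := hat_nonneg v k
    have a12 := hat_le_one v k
    omega
  subst hx hy
  exact ⟨sub_self _, rfl, rfl⟩

lemma G_uniq {x y x' y' u v : ℕ → Bool} (h : G x y - G x' y' = p u - p v) :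
    G x y - G x' y' = 0 ∧ x = x' ∧ y = y' := by
  unfold G p at h
  have h1 := comb6 16 257 (-16) (-257) (-256) 256 x y x' y' u v (by norm_num)
    (by push_cast; linarith)
  have hx : x = x' := by
    apply hat_injective
    funext k
    have := h1 k
    have a1 := hat_nonneg x k
    have a2 := hat_le_one x k
    have a3 := hat_nonneg y k
    have a4 := hat_le_one y k
    have a5 := hat_nonneg x' k
    have a6 := hat_le_one x' k
    have a7 := hat_nonneg y' k
    have a8 := hat_le_one y' k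
    have a9 := hat_nonneg u k
    have a10 := hat_le_one u k
    have a11 := hat_nonneg v k
    have a12 := hat_le_one v k
    omega
  have hy : y = y' := by
    apply hat_injective
    funext k
    have := h1 k
    have a1 := hat_nonneg x k
    have a2 := hat_le_one x k
    have a3 := hat_nonneg y k
    have a4 := hat_le_one y k
    have a5 := hat_nonneg x' k
    have a6 := hat_le_one x' k
    have a7 := hat_nonneg y' k
    have a8 := hat_le_one y' k
    have a9 := hat_nonneg u k
    have a10 := hat_le_one u k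
    have a11 := hat_nonneg v k
    have a12 := hat_le_one v k
    omega
  subst hx hy
  exact ⟨sub_self _, rfl, rfl⟩

lemma FG_uniq {x y x' y' u v : ℕ → Bool} (h : F x y - G x' y' = p u - p v) :
    x = x' ∧ y = y' := by
  unfold F G p at h
  have h1 := comb6 272 1 (-16) (-257) (-256) 256 x y x' y' u v (by norm_num)
    (by push_cast; linarith)
  have hx : x = x' := by
    apply hat_injective
    funext k
    have := h1 k
    have a1 := hat_nonneg x k
    have a2 := hat_le_one x k
    have a3 := hat_nonneg y k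
    have a4 := hat_le_one y k
    have a5 := hat_nonneg x' k
    have a6 := hat_le_one x' k
    have a7 := hat_nonneg y' k
    have a8 := hat_le_one y' k
    have a9 := hat_nonneg u k
    have a10 := hat_le_one u k
    have a11 := hat_nonneg v k
    have a12 := hat_le_one v k
    have hY : hat y k = hat y' k := by omega
    omega
  have hy : y = y' := by
    apply hat_injective
    funext k
    have := h1 k
    have a1 := hat_nonneg x k
    have a2 := hat_le_one x k
    have a3 := hat_nonneg y k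
    have a4 := hat_le_one y k
    have a5 := hat_nonneg x' k
    have a6 := hat_le_one x' k
    have a7 := hat_nonneg y' k
    have a8 := hat_le_one y' k
    have a9 := hat_nonneg u k
    have a10 := hat_le_one u k
    have a11 := hat_nonneg v k
    have a12 := hat_le_one v k
    omega
  exact ⟨hx, hy⟩

lemma p_injective : Function.Injective p := by
  intro a b h
  apply pt_injective
  unfold p at h
  linarith

lemma FG_sub (x y : ℕ → Bool) : F x y - G x y = p x - p y := by
  unfold F G p; ring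

lemma p_nonneg (x : ℕ → Bool) : 0 ≤ p x := by
  unfold p
  have := pt_nonneg x
  positivity

lemma p_le (x : ℕ → Bool) : p x ≤ 5 / 2 := by
  unfold p
  have := pt_le x
  linarith

lemma F_mem (x y : ℕ → Bool) : 0 ≤ F x y ∧ F x y ≤ 3 := by
  unfold F
  have h1 := pt_nonneg x
  have h2 := pt_nonneg y
  have h3 := pt_le x
  have h4 := pt_le y
  constructor <;> linarith

lemma G_mem (x y : ℕ → Bool) : 0 ≤ G x y ∧ G x y ≤ 3 := by
  unfold G
  have h1 := pt_nonneg x
  have h2 := pt_nonneg y
  have h3 := pt_le x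
  have h4 := pt_le y
  constructor <;> linarith

/-- The differences of coded points. -/
def PD : Set ℝ := range fun q : (ℕ → Bool) × (ℕ → Bool) => p q.1 - p q.2

lemma PD_closed : IsClosed PD := by
  refine (isCompact_range ?_).isClosed
  unfold p
  exact (continuous_const.mul (continuous_pt.comp continuous_fst)).sub
    (continuous_const.mul (continuous_pt.comp continuous_snd))

lemma PD_abs {d : ℝ} (hd : d ∈ PD) : |d| ≤ 5 / 2 := by
  obtain ⟨⟨x, y⟩, rfl⟩ := hd
  rw [abs_le]
  have h1 := p_nonneg x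
  have h2 := p_nonneg y
  have h3 := p_le x
  have h4 := p_le y
  constructor <;> simp only <;> linarith

lemma PD_neg {d : ℝ} (hd : d ∈ PD) : -d ∈ PD := by
  obtain ⟨⟨x, y⟩, rfl⟩ := hd
  exact ⟨(y, x), by simp only; ring⟩

/-- The part of the Borel set near zero. -/
def B₂ : Set ℝ := (fun q : (ℕ → Bool) × (ℕ → Bool) => F q.1 q.2) '' S ∪
  (fun q : (ℕ → Bool) × (ℕ → Bool) => G q.1 q.2) '' S

lemma measurableSet_B₂ : MeasurableSet B₂ := by
  have hF : Continuous fun q : (ℕ → Bool) × (ℕ → Bool) => F q.1 q.2 := by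
    unfold F
    have h1 := continuous_pt.comp (continuous_fst (X := ℕ → Bool) (Y := ℕ → Bool))
    have h2 := continuous_pt.comp (continuous_snd (X := ℕ → Bool) (Y := ℕ → Bool))
    exact continuous_const.mul ((h1.add (h1.div_const _)).add (h2.div_const _))
  have hG : Continuous fun q : (ℕ → Bool) × (ℕ → Bool) => G q.1 q.2 := by
    unfold G
    have h1 := continuous_pt.comp (continuous_fst (X := ℕ → Bool) (Y := ℕ → Bool))
    have h2 := continuous_pt.comp (continuous_snd (X := ℕ → Bool) (Y := ℕ → Bool))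
    exact continuous_const.mul ((h2.add (h1.div_const _)).add (h2.div_const _))
  refine MeasurableSet.union ?_ ?_
  · refine measurableSet_S.image_of_measurable_injOn hF.measurable ?_
    rintro ⟨x, y⟩ _ ⟨x', y'⟩ _ h
    obtain ⟨_, h1, h2⟩ := F_uniq (u := x) (v := x) (x := x) (y := y) (x' := x') (y' := y')
      (by simp only at h; rw [h]; ring)
    rw [h1, h2]
  · refine measurableSet_S.image_of_measurable_injOn hG.measurable ?_
    rintro ⟨x, y⟩ _ ⟨x', y'⟩ _ h
    obtain ⟨_, h1, h2⟩ := G_uniq (u := x) (v := x) (x := x) (y := y) (x' := x') (y' := y')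
      (by simp only at h; rw [h]; ring)
    rw [h1, h2]

lemma B₂_mem {t : ℝ} (ht : t ∈ B₂) : 0 ≤ t ∧ t ≤ 3 := by
  rcases ht with ⟨q, _, rfl⟩ | ⟨q, _, rfl⟩
  · exact F_mem _ _
  · exact G_mem _ _

/-- Enumeration of the grid intervals. -/
noncomputable def idx : ℕ → ℕ × ℤ := (Denumerable.eqv (ℕ × ℤ)).symm

noncomputable def bb (N : ℕ) : ℝ := ((idx N).2 : ℝ) * (4 : ℝ)⁻¹ ^ (idx N).1
noncomputable def ww (N : ℕ) : ℝ := (4 : ℝ)⁻¹ ^ (idx N).1
noncomputable def ss (N : ℕ) : ℝ := 10 + ∑ k ∈ Finset.range N, (20 + 2 * |bb k|)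
noncomputable def aa (N : ℕ) : ℝ := ss N + 5 + |bb N|

lemma ww_pos (N : ℕ) : 0 < ww N := by unfold ww; positivity
lemma ww_le (N : ℕ) : ww N ≤ 1 := by
  unfold ww
  exact pow_le_one₀ (by norm_num) (by norm_num)

lemma ss_succ (N : ℕ) : ss (N + 1) = ss N + (20 + 2 * |bb N|) := by
  unfold ss
  rw [Finset.sum_range_succ]
  ring

lemma ss_mono : Monotone ss := by
  refine monotone_nat_of_le_succ fun n => ?_
  rw [ss_succ]
  have := abs_nonneg (bb n)
  linarith

lemma ss_ge (N : ℕ) : 10 ≤ ss N := by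
  have := ss_mono (Nat.zero_le N)
  have h0 : ss 0 = 10 := by simp [ss]
  linarith

/-- The grid interval number `N` avoids the differences of coded points. -/
def good (N : ℕ) : Prop := ∀ t, bb N ≤ t → t ≤ bb N + ww N → t ∉ PD

/-- Piece number `N`, whose difference set contains the grid interval number `N`. -/
def piece (N : ℕ) : Set ℝ :=
  {t | good N ∧ ((∃ c ∈ C, t = aa N + bb N + ww N * c) ∨ (∃ c ∈ C, t = aa N - 2 * ww N * c))}

lemma piece_bounds {N : ℕ} {t : ℝ} (ht : t ∈ piece N) :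
    ss N + 4 ≤ t ∧ t ≤ ss N + 6 + 2 * |bb N| := by
  obtain ⟨_, ⟨c, hc, rfl⟩ | ⟨c, hc, rfl⟩⟩ := ht
  · have h1 := C_nonneg hc
    have h2 := C_le hc
    have h3 := ww_pos N
    have h4 := ww_le N
    have h5 := neg_abs_le (bb N)
    have h6 := le_abs_self (bb N)
    have h7 : 0 ≤ ww N * c := by positivity
    have h8 : ww N * c ≤ 1 * (1 / 3) := mul_le_mul h4 h2 h1 (by norm_num)
    unfold aa
    constructor <;> linarith
  · have h1 := C_nonneg hc
    have h2 := C_le hc
    have h3 := ww_pos N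
    have h4 := ww_le N
    have h5 := abs_nonneg (bb N)
    have h7 : 0 ≤ ww N * c := by positivity
    have h8 : ww N * c ≤ 1 * (1 / 3) := mul_le_mul h4 h2 h1 (by norm_num)
    unfold aa
    constructor <;> linarith

lemma measurableSet_piece (N : ℕ) : MeasurableSet (piece N) := by
  by_cases h : good N
  · have h1 : piece N = (fun c => aa N + bb N + ww N * c) '' C ∪
        (fun c => aa N - 2 * ww N * c) '' C := by
      ext t
      simp only [piece, mem_ofPred_eq, mem_union, mem_image]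
      constructor
      · rintro ⟨_, ⟨c, hc, h⟩ | ⟨c, hc, h⟩⟩
        · exact Or.inl ⟨c, hc, h.symm⟩
        · exact Or.inr ⟨c, hc, h.symm⟩
      · rintro (⟨c, hc, h'⟩ | ⟨c, hc, h'⟩)
        · exact ⟨h, Or.inl ⟨c, hc, h'.symm⟩⟩
        · exact ⟨h, Or.inr ⟨c, hc, h'.symm⟩⟩
    rw [h1]
    refine MeasurableSet.union ?_ ?_
    · exact (C_compact.image (by fun_prop)).isClosed.measurableSet
    · exact (C_compact.image (by fun_prop)).isClosed.measurableSet
  · have h1 : piece N = ∅ := by
      ext t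
      simp [piece, h]
    rw [h1]
    exact MeasurableSet.empty

/-- The Borel set. -/
def B : Set ℝ := B₂ ∪ ⋃ N, piece N

lemma measurableSet_B : MeasurableSet B :=
  measurableSet_B₂.union (MeasurableSet.iUnion measurableSet_piece)

lemma piece_far {N M : ℕ} (h : N < M) {x y : ℝ} (hx : x ∈ piece N) (hy : y ∈ piece M) :
    18 ≤ y - x := by
  have h1 := (piece_bounds hx).2
  have h2 := (piece_bounds hy).1
  have h3 := ss_mono (Nat.succ_le_of_lt h)
  rw [Nat.succ_eq_add_one, ss_succ] at h3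
  linarith

lemma piece_same {N : ℕ} {x y : ℝ} (hx : x ∈ piece N) (hy : y ∈ piece N) (h : x - y ∈ PD) :
    x - y = 0 := by
  obtain ⟨hg, hx⟩ := hx
  obtain ⟨_, hy⟩ := hy
  rcases hx with ⟨c, hc, rfl⟩ | ⟨c, hc, rfl⟩ <;> rcases hy with ⟨c', hc', rfl⟩ | ⟨c', hc', rfl⟩
  · obtain ⟨⟨u, v⟩, huv⟩ := h
    simp only [p] at huv
    have huv' : u = v := by
      refine C_avoid hc hc' (idx N).1 1 (Or.inl rfl) u v ?_
      change 1 * ww N * (c - c') = _
      linarith
    subst huv'
    linarith
  · exfalso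
    have h1 := C_nonneg hc
    have h2 := C_le hc
    have h1' := C_nonneg hc'
    have h2' := C_le hc'
    have h3 := ww_pos N
    refine hg _ ?_ ?_ h
    · have : 0 ≤ ww N * c := by positivity
      have : 0 ≤ ww N * c' := by positivity
      linarith
    · have e1 : ww N * c ≤ ww N * (1 / 3) := mul_le_mul_of_nonneg_left h2 h3.le
      have e2 : ww N * c' ≤ ww N * (1 / 3) := mul_le_mul_of_nonneg_left h2' h3.le
      linarith
  · exfalso
    have h1 := C_nonneg hc
    have h2 := C_le hc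
    have h1' := C_nonneg hc'
    have h2' := C_le hc'
    have h3 := ww_pos N
    refine hg _ ?_ ?_ (PD_neg h)
    · have : 0 ≤ ww N * c := by positivity
      have : 0 ≤ ww N * c' := by positivity
      linarith
    · have e1 : ww N * c ≤ ww N * (1 / 3) := mul_le_mul_of_nonneg_left h2 h3.le
      have e2 : ww N * c' ≤ ww N * (1 / 3) := mul_le_mul_of_nonneg_left h2' h3.le
      linarith
  · obtain ⟨⟨u, v⟩, huv⟩ := h
    simp only [p] at huv
    have huv' : u = v := by
      refine C_avoid hc' hc (idx N).1 2 (Or.inr rfl) u v ?_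
      change 2 * ww N * (c' - c) = _
      linarith
    subst huv'
    linarith

lemma claimA {x y : ℝ} (hx : x ∈ B) (hy : y ∈ B) (h : x - y ∈ PD) :
    x - y = 0 ∨ ∃ u v, (u, v) ∈ S ∧ x - y = p u - p v := by
  have habs := abs_le.mp (PD_abs h)
  rcases hx with hx | hx <;> rcases hy with hy | hy
  · obtain ⟨⟨u, v⟩, huv⟩ := h
    simp only at huv
    rcases hx with ⟨⟨a, b⟩, hab, rfl⟩ | ⟨⟨a, b⟩, hab, rfl⟩ <;>
      rcases hy with ⟨⟨a', b'⟩, hab', rfl⟩ | ⟨⟨a', b'⟩, hab', rfl⟩
    · left
      exact (F_uniq huv.symm).1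
    · right
      obtain ⟨rfl, rfl⟩ := FG_uniq huv.symm
      exact ⟨a, b, hab, FG_sub a b⟩
    · right
      have h2 : F a' b' - G a b = p v - p u := by simp only at huv; linarith
      obtain ⟨rfl, rfl⟩ := FG_uniq h2
      refine ⟨b', a', ?_, ?_⟩
      · obtain ⟨k1, k2, k3⟩ := hab
        exact ⟨k1.symm, k3, k2⟩
      · have := FG_sub a' b'
        simp only
        linarith
    · left
      exact (G_uniq huv.symm).1
  · exfalso
    obtain ⟨N, hN⟩ := mem_iUnion.mp hy
    have h1 := (piece_bounds hN).1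
    have h2 := ss_ge N
    have h3 := (B₂_mem hx).2
    linarith
  · exfalso
    obtain ⟨N, hN⟩ := mem_iUnion.mp hx
    have h1 := (piece_bounds hN).1
    have h2 := ss_ge N
    have h3 := (B₂_mem hy).2
    linarith
  · obtain ⟨N, hN⟩ := mem_iUnion.mp hx
    obtain ⟨M, hM⟩ := mem_iUnion.mp hy
    rcases lt_trichotomy N M with hlt | heq | hgt
    · exfalso
      have := piece_far hlt hN hM
      linarith
    · subst heq
      exact Or.inl (piece_same hN hM h)
    · exfalso
      have := piece_far hgt hM hN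
      linarith

lemma claimB {d : ℝ} (hd : d ∉ PD) : ∃ x ∈ B, ∃ y ∈ B, d = x - y := by
  obtain ⟨ε, hε, hball⟩ := Metric.isOpen_iff.mp PD_closed.isOpen_compl d hd
  obtain ⟨m, hm⟩ := exists_pow_lt_of_lt_one hε (by norm_num : (4 : ℝ)⁻¹ < 1)
  let i : ℤ := ⌊d * 4 ^ m⌋
  let N : ℕ := Denumerable.eqv (ℕ × ℤ) (m, i)
  have hidx : idx N = (m, i) := by simp [idx, N]
  have hw : ww N = (4 : ℝ)⁻¹ ^ m := by unfold ww; rw [hidx]
  have hb : bb N = (i : ℝ) * (4 : ℝ)⁻¹ ^ m := by unfold bb; rw [hidx]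
  have e4 : (4 : ℝ) ^ m * (4 : ℝ)⁻¹ ^ m = 1 := by
    rw [← mul_pow, mul_inv_cancel₀ (by norm_num), one_pow]
  have hwpos := ww_pos N
  have hi1 : (i : ℝ) ≤ d * 4 ^ m := Int.floor_le _
  have hi2 : d * 4 ^ m < i + 1 := Int.lt_floor_add_one _
  have h1 : bb N ≤ d := by
    rw [hb]
    calc (i : ℝ) * (4 : ℝ)⁻¹ ^ m ≤ (d * 4 ^ m) * (4 : ℝ)⁻¹ ^ m :=
          mul_le_mul_of_nonneg_right hi1 (by positivity)
      _ = d * (4 ^ m * (4 : ℝ)⁻¹ ^ m) := by ring
      _ = d := by rw [e4, mul_one]
  have h2 : d < bb N + ww N := by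
    rw [hb, hw]
    calc d = d * (4 ^ m * (4 : ℝ)⁻¹ ^ m) := by rw [e4, mul_one]
      _ = (d * 4 ^ m) * (4 : ℝ)⁻¹ ^ m := by ring
      _ < (i + 1) * (4 : ℝ)⁻¹ ^ m := mul_lt_mul_of_pos_right hi2 (by positivity)
      _ = _ := by ring
  have hgood : good N := by
    intro t ht1 ht2 ht
    refine hball ?_ ht
    rw [Metric.mem_ball, Real.dist_eq, abs_lt]
    rw [← hw] at hm
    constructor <;> linarith
  have ht : (d - bb N) / ww N ∈ Ico (0 : ℝ) 1 := by
    constructor
    · apply div_nonneg <;> linarith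
    · rw [div_lt_one hwpos]; linarith
  obtain ⟨c, hc, c', hc', hcc⟩ := C_cover ht
  refine ⟨aa N + bb N + ww N * c, Or.inr (mem_iUnion.mpr ⟨N, hgood, Or.inl ⟨c, hc, rfl⟩⟩),
    aa N - 2 * ww N * c', Or.inr (mem_iUnion.mpr ⟨N, hgood, Or.inr ⟨c', hc', rfl⟩⟩), ?_⟩
  have h3 : d - bb N = (c + 2 * c') * ww N := by
    rw [← hcc]; field_simp
  linarith

lemma claimC {u v : ℕ → Bool} (h : (u, v) ∈ S) : ∃ x ∈ B, ∃ y ∈ B, p u - p v = x - y :=
  ⟨F u v, Or.inl (Or.inl ⟨(u, v), h, rfl⟩), G u v, Or.inl (Or.inr ⟨(u, v), h, rfl⟩),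
    (FG_sub u v).symm⟩

lemma diff_iff (d : ℝ) :
    (∃ x ∈ B, ∃ y ∈ B, d = x - y) ↔ ¬ ∃ u v, Adj u v ∧ d = p u - p v := by
  constructor
  · rintro ⟨x, hx, y, hy, rfl⟩ ⟨u, v, hadj, huv⟩
    rcases claimA hx hy ⟨(u, v), huv.symm⟩ with h | ⟨u', v', hS, h⟩
    · rw [h] at huv
      exact hadj.1 (p_injective (by linarith))
    · rw [h] at huv
      have h1 : pt u - pt v = pt u' - pt v' := by unfold p at huv; linarith
      obtain ⟨rfl, rfl⟩ := pt_uniq h1 hadj.1
      exact (mem_S_iff hadj.1).mp hS hadj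
  · intro h
    by_cases hd : d ∈ PD
    · obtain ⟨⟨u, v⟩, rfl⟩ := hd
      by_cases huv : u = v
      · subst huv
        have h100 : (100 : ℝ) ∉ PD := by
          intro hc
          have := PD_abs hc
          rw [abs_of_pos (by norm_num)] at this
          norm_num at this
        obtain ⟨x, hx, _⟩ := claimB h100
        exact ⟨x, hx, x, hx, by simp⟩
      · refine claimC ((mem_S_iff huv).mpr fun hadj => h ⟨u, v, hadj, rfl⟩)
    · exact claimB hd

end Pool.Agent.V11242.BT
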